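import Pool.Agent.V7H68.HF.Spec2

set_option autoImplicit false

/-!
Bad parameters are bad for nearby functions, with twice the threshold.
-/

namespace Pool.Agent.V7H11.HF

open Finset Real MeasureTheory
open Pool.Agent.V7H68 Pool.Agent.V7H68.SS Pool.Agent.V7H68.MS Pool.Agent.V7H68.UF
open Pool.Agent.V7H68.HZ Pool.Agent.V7H68.HF

theorem t_BN : S_BN := by
  intro ι _ _ b hb R f φ hf A n t ρ ht1 hρA hφ hn ht
  have hb0 : (0:ℝ) < b := by exact_mod_cast (by omega : 0 < b)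
  have hb1 : (1:ℝ) ≤ b := by exact_mod_cast (by omega : 1 ≤ b)
  have hb2 : (2:ℝ) ≤ b := by exact_mod_cast hb
  set m := Fintype.card ι with hm
  have hR := hf.R0
  set X : ℝ := (b:ℝ) ^ n with hX
  have hX1 : 1 ≤ X := one_le_pow₀ hb1
  have hX0 : 0 < X := by linarith
  set c : ℝ := 2 * R + 3 with hc
  have hc1 : 1 ≤ c := by rw [hc]; linarith
  -- the level is large
  have hX4 : 4 ≤ X := by
    refine le_trans ?_ hn
    have f1 : (1:ℝ) ≤ (Nat.factorial (m + 1) : ℝ) := by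
      exact_mod_cast Nat.one_le_iff_ne_zero.2 (Nat.factorial_ne_zero _)
    have f2 : (1:ℝ) ≤ ((m + 1 : ℕ) : ℝ) := by exact_mod_cast (by omega : 1 ≤ m + 1)
    have f3 : (1:ℝ) ≤ c ^ (m + 1) := one_le_pow₀ hc1
    have f4 : (4:ℝ) ≤ c ^ (m + 1) * 4 := by linarith
    have f5 : (4:ℝ) ≤ ((m + 1 : ℕ) : ℝ) * (c ^ (m + 1) * 4) := by nlinarith
    nlinarith
  set E : ℝ := 2 * ((b:ℝ) ^ (((A + 1) * (m + 1) + 2) * n))⁻¹ with hE
  have hE0 : 0 < E := by positivity
  have hEX : E = 2 * (X ^ ((A + 1) * (m + 1) + 2))⁻¹ := by rw [hE, hX, ← pow_mul, mul_comm n]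
  have hE1 : E ≤ 1 := by
    have g1 : X ^ 1 ≤ X ^ ((A + 1) * (m + 1) + 2) := pow_le_pow_right₀ hX1 (by omega)
    rw [pow_one] at g1
    have g2 : (X ^ ((A + 1) * (m + 1) + 2))⁻¹ ≤ (4:ℝ)⁻¹ :=
      inv_anti₀ (by norm_num) (hX4.trans g1)
    rw [hEX]
    linarith
  set ρ₀ : ℝ := ((b:ℝ) ^ (A * n))⁻¹ with hρ
  have hρX : ρ₀ = (X ^ A)⁻¹ := by rw [hρ, hX, ← pow_mul, mul_comm n]
  have hρ0 : 0 < ρ₀ := by positivity
  have hρp : 0 < ρ := lt_of_lt_of_le hρ0 hρA
  unfold bdr at ht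
  simp only [Set.mem_iUnion] at ht
  obtain ⟨l, hl, ⟨ws, w0, σ⟩, hdet, hlt⟩ := ht
  rw [Finset.mem_range] at hl
  unfold bdr
  simp only [Set.mem_iUnion]
  refine ⟨l, Finset.mem_range.2 hl, (ws, w0, σ), hdet, ?_⟩
  simp only at hlt ⊢
  have hXd : ∀ (w : ι → Fin (b ^ n)) (j : ι), |UF.X b n f w j - UF.X b n φ w j| ≤ X * E := by
    intro w j
    have h1 := hφ _ (corner_mem_cube (dv_lt w))
    have h2 : UF.X b n f w j - UF.X b n φ w j = X * (f (((b ^ n : ℕ) : ℝ)⁻¹ • nv (dv w)) -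
        φ (((b ^ n : ℕ) : ℝ)⁻¹ • nv (dv w))) j := by
      unfold UF.X
      simp only [Pi.smul_apply, Pi.sub_apply, smul_eq_mul]
      push_cast
      rw [hX]
      ring
    rw [h2, abs_mul, abs_of_pos hX0]
    refine mul_le_mul_of_nonneg_left ?_ hX0.le
    exact (norm_le_pi_norm (f (((b ^ n : ℕ) : ℝ)⁻¹ • nv (dv w)) -
        φ (((b ^ n : ℕ) : ℝ)⁻¹ • nv (dv w))) j).trans h1
  have hXf : ∀ (w : ι → Fin (b ^ n)) (j : ι), |UF.X b n f w j| ≤ X * R := by
    intro w j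
    exact (norm_le_pi_norm (UF.X b n f w) j).trans (norm_X_le hf n w)
  have hV : ∀ (i : Fin (l + 1)) (j : Fin (l + 1)), |mV b n ws w0 σ i j| ≤ X := by
    intro i j
    simp only [mV, Matrix.of_apply]
    have h1 : ((dv (ws i) (σ j) : ℕ) : ℝ) ≤ X := by
      have := (dv_lt (ws i) (σ j)).le
      rw [hX]
      exact_mod_cast this
    have h2 : ((dv w0 (σ j) : ℕ) : ℝ) ≤ X := by
      have := (dv_lt w0 (σ j)).le
      rw [hX]
      exact_mod_cast this
    have h3 : (0:ℝ) ≤ ((dv (ws i) (σ j) : ℕ) : ℝ) := Nat.cast_nonneg _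
    have h4 : (0:ℝ) ≤ ((dv w0 (σ j) : ℕ) : ℝ) := Nat.cast_nonneg _
    rw [abs_le]
    constructor <;> linarith
  set B : ℝ := X * (2 * R + 3) with hB
  have hB1 : 1 ≤ B := by rw [hB]; nlinarith
  have htV : ∀ i j, |t * mV b n ws w0 σ i j| ≤ X := by
    intro i j
    rw [abs_mul]
    have := hV i j
    have h0 := abs_nonneg (mV b n ws w0 σ i j)
    nlinarith
  have hA1 : ∀ i j, |(mX b n f ws w0 σ + t • mV b n ws w0 σ) i j| ≤ B := by
    intro i j
    simp only [Matrix.add_apply, Matrix.smul_apply, smul_eq_mul]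
    refine (abs_add_le _ _).trans ?_
    have h1 : |mX b n f ws w0 σ i j| ≤ X * R + X * R := by
      simp only [mX, Matrix.of_apply]
      exact (abs_sub _ _).trans (add_le_add (hXf _ _) (hXf _ _))
    have h2 := htV i j
    rw [hB]
    linarith
  have hAC : ∀ i j, |(mX b n f ws w0 σ + t • mV b n ws w0 σ) i j -
      (mX b n φ ws w0 σ + t • mV b n ws w0 σ) i j| ≤ 2 * (X * E) := by
    intro i j
    simp only [Matrix.add_apply, Matrix.smul_apply, smul_eq_mul, mX, Matrix.of_apply]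
    have h1 : UF.X b n f (ws i) (σ j) - UF.X b n f w0 (σ j) + t * mV b n ws w0 σ i j -
        (UF.X b n φ (ws i) (σ j) - UF.X b n φ w0 (σ j) + t * mV b n ws w0 σ i j) =
        (UF.X b n f (ws i) (σ j) - UF.X b n φ (ws i) (σ j)) -
        (UF.X b n f w0 (σ j) - UF.X b n φ w0 (σ j)) := by ring
    rw [h1]
    refine (abs_sub _ _).trans ?_
    have h2 := hXd (ws i) (σ j)
    have h3 := hXd w0 (σ j)
    linarith
  have hC1 : ∀ i j, |(mX b n φ ws w0 σ + t • mV b n ws w0 σ) i j| ≤ B := by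
    intro i j
    have h1 := hAC i j
    have h2 : |(mX b n f ws w0 σ + t • mV b n ws w0 σ) i j| ≤ X * R + X * R + X := by
      simp only [Matrix.add_apply, Matrix.smul_apply, smul_eq_mul]
      refine (abs_add_le _ _).trans ?_
      have h1 : |mX b n f ws w0 σ i j| ≤ X * R + X * R := by
        simp only [mX, Matrix.of_apply]
        exact (abs_sub _ _).trans (add_le_add (hXf _ _) (hXf _ _))
      have h2 := htV i j
      linarith
    have h3 : 2 * (X * E) ≤ 2 * X := by nlinarith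
    have h4 := abs_sub_abs_le_abs_sub ((mX b n φ ws w0 σ + t • mV b n ws w0 σ) i j)
      ((mX b n f ws w0 σ + t • mV b n ws w0 σ) i j)
    rw [abs_sub_comm] at h4
    rw [hB]
    linarith
  have hclose := det_close _ _ hB1 (by positivity : (0:ℝ) ≤ 2 * (X * E)) hA1 hC1 hAC
  have hbound : (Nat.factorial (l + 1) : ℝ) * (((l + 1 : ℕ) : ℝ) * (B ^ (l + 1) *
      (2 * (X * E)))) ≤ ρ₀ ^ (l + 1) := by
    have e1 : B ^ (l + 1) = X ^ (l + 1) * c ^ (l + 1) := by rw [hB, mul_pow]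
    have e2 : c ^ (l + 1) ≤ c ^ (m + 1) := pow_le_pow_right₀ hc1 (by omega)
    have e3 : (Nat.factorial (l + 1) : ℝ) ≤ Nat.factorial (m + 1) := by
      exact_mod_cast Nat.factorial_le (by omega)
    have e4 : ((l + 1 : ℕ) : ℝ) ≤ ((m + 1 : ℕ) : ℝ) := by exact_mod_cast (by omega : l + 1 ≤ m + 1)
    have e5 : (Nat.factorial (l + 1) : ℝ) * (((l + 1 : ℕ) : ℝ) * (c ^ (l + 1) * 4)) ≤ X := by
      refine le_trans ?_ hn
      refine mul_le_mul e3 ?_ (by positivity) (by positivity)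
      exact mul_le_mul e4 (mul_le_mul_of_nonneg_right e2 (by norm_num)) (by positivity)
        (by positivity)
    have e6 : (Nat.factorial (l + 1) : ℝ) * (((l + 1 : ℕ) : ℝ) * (B ^ (l + 1) * (2 * (X * E)))) =
        ((Nat.factorial (l + 1) : ℝ) * (((l + 1 : ℕ) : ℝ) * (c ^ (l + 1) * 4))) *
          (X ^ (l + 1) * X * (E / 2)) := by
      rw [e1]
      ring
    rw [e6]
    have e7 : 0 ≤ X ^ (l + 1) * X * (E / 2) := by positivity
    refine (mul_le_mul_of_nonneg_right e5 e7).trans ?_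
    have e9 : ρ₀ ^ (l + 1) = (X ^ (A * (l + 1)))⁻¹ := by rw [hρX, inv_pow, ← pow_mul X A]
    have e8 : X * (X ^ (l + 1) * X * (E / 2)) =
        X ^ (l + 3) * (X ^ ((A + 1) * (m + 1) + 2))⁻¹ := by
      rw [hEX]
      ring
    rw [e8, e9, ← div_eq_mul_inv, div_le_iff₀ (by positivity), ← div_eq_inv_mul,
      le_div_iff₀ (by positivity), ← pow_add]
    refine pow_le_pow_right₀ hX1 ?_
    have e10 : (A + 1) * (l + 1) ≤ (A + 1) * (m + 1) := Nat.mul_le_mul_left _ (by omega)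
    have e11 : (A + 1) * (l + 1) = A * (l + 1) + (l + 1) := by ring
    omega
  have hρle : ρ₀ ^ (l + 1) ≤ ρ ^ (l + 1) := pow_le_pow_left₀ hρ0.le hρA _
  have h1 := abs_sub_abs_le_abs_sub ((mX b n φ ws w0 σ + t • mV b n ws w0 σ).det)
    ((mX b n f ws w0 σ + t • mV b n ws w0 σ).det)
  rw [abs_sub_comm] at h1
  have h2 : |(mX b n φ ws w0 σ + t • mV b n ws w0 σ).det| < 2 * ρ ^ (l + 1) := by linarith
  refine h2.trans_le ?_
  rw [mul_pow]
  refine mul_le_mul_of_nonneg_right ?_ (by positivity)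
  calc (2:ℝ) = 2 ^ 1 := by norm_num
    _ ≤ 2 ^ (l + 1) := pow_le_pow_right₀ (by norm_num) (by omega)

end Pool.Agent.V7H11.HF
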