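import Pool.Agent.V7H68.HF.Spec2

set_option autoImplicit false

/-!
The zooms of a class are approximated by few of them, chosen with small values of a functional.
-/

namespace Pool.Agent.V7H11.HF

open Finset Real MeasureTheory
open Pool.Agent.V7H68 Pool.Agent.V7H68.SS Pool.Agent.V7H68.MS Pool.Agent.V7H68.UF
open Pool.Agent.V7H68.HZ Pool.Agent.V7H68.HF

theorem t_RCM : S_RCM := by
  intro ι _ _ b hb g c ℓ hℓ1 h hrel M
  classical
  have hbp : 0 < b := by omega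
  have hb0 : (0:ℝ) < b := by exact_mod_cast hbp
  have hb1 : (1:ℝ) < b := by exact_mod_cast (by omega : 1 < b)
  have hb2 : (2:ℝ) ≤ b := by exact_mod_cast hb
  have hlb : 0 < log b := Real.log_pos hb1
  rintro Z ⟨k, z, hz, rfl⟩ Φ
  obtain ⟨s, hs1, hs2⟩ := hrel k z hz
  set G : (ι → Fin (b ^ ℓ)) → (ι → ℝ) → ι → ℝ := fun w =>
    zm (b ^ (k + ℓ)) (fun i => b ^ ℓ * z i + dv w i) g with hG
  have hex : ∀ w : ι → Fin (b ^ ℓ), ∃ φ ∈ s, ∀ u ∈ cube ι,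
      ‖G w u - φ u‖ ≤ ((b:ℝ) ^ ((c + 1) * ℓ))⁻¹ := fun w => hs2 (dv w) (dv_lt w)
  choose ctr hctr1 hctr2 using hex
  have hrep : ∀ φ : (ι → ℝ) → ι → ℝ, ∃ w' : ι → Fin (b ^ ℓ),
      (∃ w, ctr w = φ) → ctr w' = φ ∧ ∀ w, ctr w = φ → Φ (fM (G w') M) ≤ Φ (fM (G w) M) := by
    intro φ
    by_cases hφ : ∃ w, ctr w = φ
    · obtain ⟨w, hw⟩ := hφ
      obtain ⟨w', hw1, hw2⟩ := Finset.exists_min_image
        ((Finset.univ : Finset (ι → Fin (b ^ ℓ))).filter fun w => ctr w = φ)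
        (fun w => Φ (fM (G w) M)) ⟨w, Finset.mem_filter.2 ⟨Finset.mem_univ _, hw⟩⟩
      exact ⟨w', fun _ => ⟨(Finset.mem_filter.1 hw1).2, fun w hw =>
        hw2 w (Finset.mem_filter.2 ⟨Finset.mem_univ _, hw⟩)⟩⟩
    · exact ⟨fun _ => ⟨0, pow_pos hbp ℓ⟩, fun h => absurd h hφ⟩
  choose rep hrep using hrep
  have hzoom : ∀ w, zm (b ^ ℓ) (dv w) (fM (zm (b ^ k) z g) M) = fM (G w) M := by
    intro w
    rw [zm_fM (pow_pos hbp ℓ) (dv_lt w), zm_zm (by positivity) (by positivity) z (dv w)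
      (dv_lt w), ← pow_add]
  refine ⟨fun w => fM (G (rep (ctr w))) M, fun w => ?_, ?_, fun w y hy => ?_, fun w => ?_⟩
  · exact ⟨k + ℓ, _, low_lt hz (dv_lt _), rfl⟩
  · have h1 : (Set.range fun w => fM (G (rep (ctr w))) M).ncard ≤ s.card := by
      have h2 : (Set.range fun w => fM (G (rep (ctr w))) M) ⊆
          ((s.image fun φ => fM (G (rep φ)) M : Finset _) : Set _) := by
        rintro _ ⟨w, rfl⟩
        rw [Finset.coe_image]
        exact ⟨ctr w, hctr1 w, rfl⟩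
      refine (Set.ncard_le_ncard h2 (Finset.finite_toSet _)).trans ?_
      rw [Set.ncard_coe_finset]
      exact Finset.card_image_le
    have h2 : 0 < (Set.range fun w => fM (G (rep (ctr w))) M).ncard := by
      rw [Set.ncard_pos (Set.finite_range _)]
      exact ⟨_, ⟨fun _ => ⟨0, pow_pos hbp ℓ⟩, rfl⟩⟩
    have h3 : (((Set.range fun w => fM (G (rep (ctr w))) M).ncard : ℕ) : ℝ) ≤
        (b:ℝ) ^ (h * ℓ) := le_trans (by exact_mod_cast h1) hs1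
    have h4 := Real.log_le_log (by exact_mod_cast h2) h3
    rw [Real.log_rpow hb0] at h4
    refine h4.trans (le_of_eq ?_)
    ring
  · rw [hzoom w]
    change ‖fM (G w) M y - fM (G (rep (ctr w))) M y‖ ≤ _
    rw [fM_mem _ _ hy, fM_mem _ _ hy, add_sub_add_right_eq_sub]
    have h1 := hctr2 w y hy
    have h2 := hctr2 (rep (ctr w)) y hy
    rw [(hrep (ctr w) ⟨w, rfl⟩).1, norm_sub_rev] at h2
    have h3 := norm_add_le (G w y - ctr w y) (ctr w y - G (rep (ctr w)) y)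
    rw [sub_add_sub_cancel] at h3
    have h4 : ((b:ℝ) ^ ((c + 1) * ℓ))⁻¹ + ((b:ℝ) ^ ((c + 1) * ℓ))⁻¹ ≤ ((b:ℝ) ^ (c * ℓ))⁻¹ := by
      have e1 : (b:ℝ) ^ ((c + 1) * ℓ) = (b:ℝ) ^ (c * ℓ) * (b:ℝ) ^ ℓ := by
        rw [add_mul, one_mul, pow_add]
      have e2 : (2:ℝ) ≤ (b:ℝ) ^ ℓ := hb2.trans (le_self_pow₀ hb1.le (by omega))
      rw [e1, mul_inv]
      have e3 : ((b:ℝ) ^ ℓ)⁻¹ ≤ 2⁻¹ := inv_anti₀ (by norm_num) e2
      have e4 : (0:ℝ) < ((b:ℝ) ^ (c * ℓ))⁻¹ := by positivity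
      nlinarith
    linarith
  · rw [hzoom w]
    exact (hrep (ctr w) ⟨w, rfl⟩).2 w rfl

end Pool.Agent.V7H11.HF
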